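import Pool.Agent.V1140.ZT.Dyadic

/-!
# For `b n = 2 ^ n` the topology `s_b` is compatible with the 2-adic topology, but it is not the Mackey
# topology

Compatibility. A neighbourhood of zero in `s_b` is given by finitely many sequences `c` of powers of two
whose exponents have gaps tending to infinity. A position `q` is free if no exponent of these
sequences is in `(q, q + L]`. Sums of powers `± 2 ^ q` with different free positions are in the
neighbourhood, and near every large number there are free positions. If `x` is not a dyadic rational,
`‖2 ^ q x‖ ≥ 2 ^ (-W-2)` for infinitely many free positions, and `x` is not continuous.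

Not Mackey. Let `h n` be a fast null sequence (see the hand-in for `MP_19adc1_gt`) of dyadic rationals,
where `h n` has `n + 1` binary digits one, with distances `n + 2`. The topology of uniform
convergence on the `h n` and all dyadic rationals (pointwise) has only the dyadic rationals as
characters. It is not coarser than `s_b`: for each digit of `h n` there is a free position just
before it, and so a sum of powers of two in the given neighbourhood is far from zero at `h n`.
-/

set_option autoImplicit false

namespace Pool.Agent.Results.MP_2b4c46_gt.SupNotMackey

open Pool.Agent.V1140.ZT

/-- For the D-sequence `b n = 2 ^ n` the topology `s_b` is compatible with `lam b`, and there is a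
locally quasi-convex group topology on `ℤ` with the same characters which is not coarser than `s_b`. -/
theorem result : ∃ b : ℕ → ℕ, (∀ n, b n = 2 ^ n) ∧ IsDSeq b ∧
    chars (supTau b) = chars (lam b) ∧
    ∃ σ : TopologicalSpace ℤ, @IsTopologicalAddGroup ℤ σ _ ∧ IsLQC σ ∧
      chars σ = chars (lam b) ∧ ¬ supTau b ≤ σ :=
  ⟨two, fun _ => rfl, two_dseq, chars_supTau_two, not_mackey_two⟩

end Pool.Agent.Results.MP_2b4c46_gt.SupNotMackey
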